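import Pool.Agent.Y466.TW.Stm

/-! # Project TW (helper466): Poincare duality in the exterior algebra of `Z^n` -/

set_option autoImplicit false

namespace Pool.Agent.Y799.TW.PD

open ExteriorAlgebra
open Pool.Agent.Y466.TW
open Pool.Agent.Results.MP_69cf13_gt.EEightPlusTenH

/-- a function of four indices as a function of quadruples -/
def W {n : ℕ} (w : Fin n → Fin n → Fin n → Fin n → ℤ) (v : Fin 4 → Fin n) : ℤ :=
  w (v 0) (v 1) (v 2) (v 3)

theorem W_perm {n : ℕ} {w : Fin n → Fin n → Fin n → Fin n → ℤ} (hw : Alt w)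
    (τ : Equiv.Perm (Fin 4)) :
    ∀ v : Fin 4 → Fin n, W w (v ∘ τ) = ((Equiv.Perm.sign τ : ℤˣ) : ℤ) * W w v := by
  have h : τ ∈ Submonoid.closure
      (Set.range fun i : Fin 3 => Equiv.swap i.castSucc i.succ) := by
    rw [Equiv.Perm.mclosure_swap_castSucc_succ]; trivial
  obtain ⟨h1, h2, h3⟩ := hw
  induction h using Submonoid.closure_induction with
  | mem x hx =>
    obtain ⟨i, rfl⟩ := hx
    intro v
    have hs : Equiv.Perm.sign (Equiv.swap i.castSucc i.succ) = -1 :=
      Equiv.Perm.sign_swap (by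
        intro h
        have := congrArg Fin.val h
        simp at this)
    show W w (v ∘ ⇑(Equiv.swap i.castSucc i.succ)) =
      ((Equiv.Perm.sign (Equiv.swap i.castSucc i.succ) : ℤˣ) : ℤ) * W w v
    rw [hs]
    have e : (((-1 : ℤˣ) : ℤ)) * W w v = -W w v := by simp
    rw [e]
    unfold W
    simp only [Function.comp_apply]
    fin_cases i
    · have a0 : (Equiv.swap (0 : Fin 3).castSucc (0 : Fin 3).succ) (0 : Fin 4) = 1 := by decide
      have a1 : (Equiv.swap (0 : Fin 3).castSucc (0 : Fin 3).succ) (1 : Fin 4) = 0 := by decide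
      have a2 : (Equiv.swap (0 : Fin 3).castSucc (0 : Fin 3).succ) (2 : Fin 4) = 2 := by decide
      have a3 : (Equiv.swap (0 : Fin 3).castSucc (0 : Fin 3).succ) (3 : Fin 4) = 3 := by decide
      show w (v ((Equiv.swap (0 : Fin 3).castSucc (0 : Fin 3).succ) 0))
        (v ((Equiv.swap (0 : Fin 3).castSucc (0 : Fin 3).succ) 1))
        (v ((Equiv.swap (0 : Fin 3).castSucc (0 : Fin 3).succ) 2))
        (v ((Equiv.swap (0 : Fin 3).castSucc (0 : Fin 3).succ) 3)) = _
      rw [a0, a1, a2, a3]
      exact h1 _ _ _ _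
    · have a0 : (Equiv.swap (1 : Fin 3).castSucc (1 : Fin 3).succ) (0 : Fin 4) = 0 := by decide
      have a1 : (Equiv.swap (1 : Fin 3).castSucc (1 : Fin 3).succ) (1 : Fin 4) = 2 := by decide
      have a2 : (Equiv.swap (1 : Fin 3).castSucc (1 : Fin 3).succ) (2 : Fin 4) = 1 := by decide
      have a3 : (Equiv.swap (1 : Fin 3).castSucc (1 : Fin 3).succ) (3 : Fin 4) = 3 := by decide
      show w (v ((Equiv.swap (1 : Fin 3).castSucc (1 : Fin 3).succ) 0))
        (v ((Equiv.swap (1 : Fin 3).castSucc (1 : Fin 3).succ) 1))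
        (v ((Equiv.swap (1 : Fin 3).castSucc (1 : Fin 3).succ) 2))
        (v ((Equiv.swap (1 : Fin 3).castSucc (1 : Fin 3).succ) 3)) = _
      rw [a0, a1, a2, a3]
      exact h2 _ _ _ _
    · have a0 : (Equiv.swap (2 : Fin 3).castSucc (2 : Fin 3).succ) (0 : Fin 4) = 0 := by decide
      have a1 : (Equiv.swap (2 : Fin 3).castSucc (2 : Fin 3).succ) (1 : Fin 4) = 1 := by decide
      have a2 : (Equiv.swap (2 : Fin 3).castSucc (2 : Fin 3).succ) (2 : Fin 4) = 3 := by decide
      have a3 : (Equiv.swap (2 : Fin 3).castSucc (2 : Fin 3).succ) (3 : Fin 4) = 2 := by decide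
      show w (v ((Equiv.swap (2 : Fin 3).castSucc (2 : Fin 3).succ) 0))
        (v ((Equiv.swap (2 : Fin 3).castSucc (2 : Fin 3).succ) 1))
        (v ((Equiv.swap (2 : Fin 3).castSucc (2 : Fin 3).succ) 2))
        (v ((Equiv.swap (2 : Fin 3).castSucc (2 : Fin 3).succ) 3)) = _
      rw [a0, a1, a2, a3]
      exact h3 _ _ _ _
  | one =>
    intro v
    simp
  | mul x y _ _ hx hy =>
    intro v
    have e : v ∘ ⇑(x * y) = (v ∘ ⇑x) ∘ ⇑y := rfl
    rw [e, hy, hx, Equiv.Perm.sign_mul]
    push_cast
    ring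

theorem W_zero {n : ℕ} {w : Fin n → Fin n → Fin n → Fin n → ℤ} (hw : Alt w)
    (v : Fin 4 → Fin n) (hv : ¬ Function.Injective v) : W w v = 0 := by
  unfold Function.Injective at hv
  push Not at hv
  obtain ⟨a, b, hab, hne⟩ := hv
  have h := W_perm hw (Equiv.swap a b) v
  rw [Equiv.Perm.sign_swap hne] at h
  have e : v ∘ ⇑(Equiv.swap a b) = v := by
    funext c
    simp only [Function.comp_apply]
    by_cases hca : c = a
    · rw [hca, Equiv.swap_apply_left, hab]
    · by_cases hcb : c = b
      · rw [hcb, Equiv.swap_apply_right, hab]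
      · rw [Equiv.swap_apply_of_ne_of_ne hca hcb]
  rw [e] at h
  simp only [Units.val_neg, Units.val_one, neg_mul, one_mul] at h
  omega

/-- the generators -/
def B (n : ℕ) (i : Fin n) : Fin n → ℤ := Pi.single i 1

theorem mulM (k : ℕ) (a : Fin 4 → Fin (4 + k)) (b : Fin k → Fin (4 + k)) :
    ιMulti ℤ 4 (B (4 + k) ∘ a) * ιMulti ℤ k (B (4 + k) ∘ b) =
      ιMulti ℤ (4 + k) (B (4 + k) ∘ Fin.append a b) := by
  rw [ιMulti_apply, ιMulti_apply, ιMulti_apply, ← List.prod_append]
  congr 1
  rw [List.ofFn_add]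
  congr 1
  congr 1
  funext i
  simp [Fin.append_right]

theorem perm_T (n : ℕ) (π : Equiv.Perm (Fin n)) :
    ιMulti ℤ n (B n ∘ π) = ((Equiv.Perm.sign π : ℤˣ) : ℤ) • T n := by
  have h := (ιMulti ℤ n (M := Fin n → ℤ)).map_perm (B n) π
  rw [h]
  rfl

theorem pd : PD := by
  intro n hn w hw
  obtain ⟨k, rfl⟩ : ∃ k, n = 4 + k := ⟨n - 4, by omega⟩
  have hk : 4 + k - 4 = k := by omega
  rw [hk]
  classical
  -- complementary monomials
  have hex : ∀ v : Fin 4 → Fin (4 + k), Function.Injective v →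
      ∃ m : Coh (4 + k), m ∈ H (4 + k) k ∧ ιMulti ℤ 4 (B (4 + k) ∘ v) * m = T (4 + k) ∧
        ∀ u : Fin 4 → Fin (4 + k), (∃ a, u a ∉ Set.range v) →
          ιMulti ℤ 4 (B (4 + k) ∘ u) * m = 0 := by
    intro v hv
    obtain ⟨π, hπ⟩ := Equiv.Perm.exists_extending_pair (Fin.castAdd k : Fin 4 → Fin (4 + k)) v
      (Fin.castAdd_injective 4 k) hv
    refine ⟨((Equiv.Perm.sign π : ℤˣ) : ℤ) • ιMulti ℤ k (B (4 + k) ∘ (π ∘ Fin.natAdd 4)),
      ?_, ?_, ?_⟩
    · show _ ∈ ⋀[ℤ]^k (Fin (4 + k) → ℤ)
      refine Submodule.smul_mem _ _ ?_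
      rw [← ιMulti_span_fixedDegree]
      exact Submodule.subset_span ⟨_, rfl⟩
    · rw [mul_smul_comm, mulM]
      have e : Fin.append v (π ∘ Fin.natAdd 4) = π := by
        funext x
        refine Fin.addCases (fun a => ?_) (fun b => ?_) x
        · rw [Fin.append_left]; exact (hπ a).symm
        · rw [Fin.append_right]; rfl
      rw [e, perm_T, smul_smul]
      have e2 : ((Equiv.Perm.sign π : ℤˣ) : ℤ) * ((Equiv.Perm.sign π : ℤˣ) : ℤ) = 1 := by
        rw [← Units.val_mul, Int.units_mul_self, Units.val_one]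
      rw [e2, one_smul]
    · rintro u ⟨a, ha⟩
      rw [mul_smul_comm, mulM]
      have hni : ¬ Function.Injective (B (4 + k) ∘ Fin.append u (π ∘ Fin.natAdd 4)) := by
        intro hinj
        have hinj' : Function.Injective (Fin.append u (π ∘ Fin.natAdd 4)) :=
          Function.Injective.of_comp hinj
        obtain ⟨x, hx⟩ := π.surjective (u a)
        revert hx
        refine Fin.addCases (fun a' => ?_) (fun b => ?_) x
        · intro hx
          exact ha ⟨a', by rw [← hx]; exact (hπ a').symm⟩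
        · intro hx
          have h1 : Fin.append u (π ∘ Fin.natAdd 4) (Fin.castAdd k a) =
              Fin.append u (π ∘ Fin.natAdd 4) (Fin.natAdd 4 b) := by
            rw [Fin.append_left, Fin.append_right]
            exact hx.symm
          have h2 := congrArg Fin.val (hinj' h1)
          simp only [Fin.val_castAdd, Fin.val_natAdd] at h2
          have := a.2
          omega
      rw [AlternatingMap.map_eq_zero_of_not_injective _ _ hni, smul_zero]
  choose! m hmH hmT hm0 using hex
  -- enumerations of the sets of four elements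
  let I : Type := {S : Finset (Fin (4 + k)) // S.card = 4}
  let en : I → Fin 4 → Fin (4 + k) := fun S => S.1.orderEmbOfFin S.2
  have hen : ∀ S : I, Function.Injective (en S) := fun S => (S.1.orderEmbOfFin S.2).injective
  have hr : ∀ S : I, Set.range (en S) = (S.1 : Set (Fin (4 + k))) := fun S =>
    Finset.range_orderEmbOfFin S.1 S.2
  refine ⟨∑ S : I, W w (en S) • m (en S), ?_, ?_⟩
  · show _ ∈ ⋀[ℤ]^k (Fin (4 + k) → ℤ)
    exact Submodule.sum_mem _ fun S _ => Submodule.smul_mem _ _ (hmH _ (hen S))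
  have key : ∀ v : Fin 4 → Fin (4 + k),
      ιMulti ℤ 4 (B (4 + k) ∘ v) * ∑ S : I, W w (en S) • m (en S) = W w v • T (4 + k) := by
    intro v
    by_cases hv : Function.Injective v
    · have hcard : (Finset.univ.image v).card = 4 := by
        rw [Finset.card_image_of_injective _ hv, Finset.card_univ, Fintype.card_fin]
      let S0 : I := ⟨Finset.univ.image v, hcard⟩
      have hv0 : ∀ a, v a ∈ Set.range (en S0) := by
        intro a
        rw [hr]
        exact Finset.mem_coe.2 (Finset.mem_image_of_mem v (Finset.mem_univ a))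
      rw [Finset.mul_sum, Finset.sum_eq_single S0]
      · -- the permutation
        choose τ hτ using hv0
        have hτi : Function.Injective τ := by
          intro a b hab
          apply hv
          rw [← hτ a, ← hτ b, hab]
        obtain ⟨τ', hτ'⟩ : ∃ τ' : Equiv.Perm (Fin 4), ⇑τ' = τ :=
          ⟨Equiv.ofBijective τ (Finite.injective_iff_bijective.mp hτi), rfl⟩
        have hveq : v = en S0 ∘ ⇑τ' := by
          funext a
          rw [hτ']
          exact (hτ a).symm
        have h1 := (ιMulti ℤ 4 (M := Fin (4 + k) → ℤ)).map_perm (B (4 + k) ∘ en S0) τ'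
        have h2 : ιMulti ℤ 4 (B (4 + k) ∘ v) =
            ((Equiv.Perm.sign τ' : ℤˣ) : ℤ) • ιMulti ℤ 4 (B (4 + k) ∘ en S0) := by
          rw [hveq]
          exact h1
        rw [h2, smul_mul_assoc, mul_smul_comm, hmT _ (hen S0), smul_smul]
        congr 1
        conv_rhs => rw [hveq]
        rw [W_perm hw]
      · intro S _ hS
        rw [mul_smul_comm, hm0 (en S) (hen S) v, smul_zero]
        by_contra hcon
        push Not at hcon
        apply hS
        apply Subtype.ext
        symm
        apply Finset.eq_of_subset_of_card_le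
        · intro x hx
          obtain ⟨a, -, rfl⟩ := Finset.mem_image.1 hx
          have := hcon a
          rw [hr] at this
          exact this
        · rw [S.2, hcard]
      · intro h
        exact absurd (Finset.mem_univ _) h
    · have hni : ¬ Function.Injective (B (4 + k) ∘ v) := fun h => hv (Function.Injective.of_comp h)
      rw [AlternatingMap.map_eq_zero_of_not_injective _ _ hni, zero_mul, W_zero hw v hv, zero_smul]
  intro i j a b
  have h := key ![i, j, a, b]
  have e : ιMulti ℤ 4 (B (4 + k) ∘ ![i, j, a, b]) =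
      ExteriorAlgebra.ι ℤ (Pi.single i 1 : Fin (4 + k) → ℤ) *
        ExteriorAlgebra.ι ℤ (Pi.single j 1 : Fin (4 + k) → ℤ) *
        (ExteriorAlgebra.ι ℤ (Pi.single a 1 : Fin (4 + k) → ℤ) *
          ExteriorAlgebra.ι ℤ (Pi.single b 1 : Fin (4 + k) → ℤ)) := by
    rw [ιMulti_apply]
    simp [List.ofFn_succ, B, mul_assoc]
  rw [e] at h
  exact h

end Pool.Agent.Y799.TW.PD
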